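import Pool.Agent.H6.N4D.TA

/-!
# Row PI of n4d_modules
-/

set_option autoImplicit false

open Finset Pool.Agent.H6.N4D

namespace Pool.Agent.H72.N4D

theorem sum_shift_le2 (A B : Finset ℤ) (v : ℤ) (g : ℤ → ℝ) (hg : ∀ t, 0 ≤ g t)
    (h : ∀ t ∈ A, t + v ∈ B) : ∑ t ∈ A, g (t + v) ≤ ∑ t ∈ B, g t := by
  have h1 : ∑ t ∈ A, g (t + v) = ∑ u ∈ A.image (fun t => t + v), g u := by
    rw [sum_image]
    intro x _ y _ hxy
    simpa using hxy
  rw [h1]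
  refine sum_le_sum_of_subset_of_nonneg ?_ (fun i _ _ => hg i)
  intro u hu
  rw [mem_image] at hu
  obtain ⟨t, ht, rfl⟩ := hu
  exact h t ht

theorem three_sq (x y w z : ℂ) :
    ‖x - z‖ ^ 2 ≤ 3 * (‖x - y‖ ^ 2 + ‖y - w‖ ^ 2 + ‖w - z‖ ^ 2) := by
  have h1 : ‖x - z‖ ≤ ‖x - y‖ + ‖y - w‖ + ‖w - z‖ := by
    calc ‖x - z‖ = ‖(x - y) + (y - w) + (w - z)‖ := by congr 1; ring
      _ ≤ ‖x - y‖ + ‖y - w‖ + ‖w - z‖ := norm_add₃_le
  have h2 := pow_le_pow_left₀ (norm_nonneg _) h1 2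
  nlinarith [sq_nonneg (‖x - y‖ - ‖y - w‖), sq_nonneg (‖y - w‖ - ‖w - z‖),
    sq_nonneg (‖x - y‖ - ‖w - z‖)]

/-- the strips -/
theorem strips (I J : Finset ℤ) (f : ℤ → ℂ) (z : ℂ) (l : ℤ)
    (hJI : J ⊆ I)
    (h : ∀ t ∈ I, t ∈ J ∨ (t + l ∈ I ∧ t + l + l ∈ J) ∨ (t - l ∈ I ∧ t - l - l ∈ J)) :
    ∑ t ∈ I, ‖f t - z‖ ^ 2 ≤ 7 * ∑ t ∈ J, ‖f t - z‖ ^ 2 +
      12 * ∑ t ∈ I.filter (fun t => t - l ∈ I), ‖f (t - l) - f t‖ ^ 2 := by
  classical
  set L := I.filter (fun t => t + l ∈ I ∧ t + l + l ∈ J) with hL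
  set R := I.filter (fun t => t - l ∈ I ∧ t - l - l ∈ J) with hR
  set A : ℝ := ∑ t ∈ I.filter (fun t => t - l ∈ I), ‖f (t - l) - f t‖ ^ 2 with hA
  set T : ℝ := ∑ t ∈ J, ‖f t - z‖ ^ 2 with hT
  have hcov : I ⊆ J ∪ (L ∪ R) := by
    intro t ht
    rw [mem_union, mem_union, hL, hR, mem_filter, mem_filter]
    rcases h t ht with h1 | h1 | h1
    · exact Or.inl h1
    · exact Or.inr (Or.inl ⟨ht, h1⟩)
    · exact Or.inr (Or.inr ⟨ht, h1⟩)
  have h1 : ∑ t ∈ I, ‖f t - z‖ ^ 2 ≤ T + (∑ t ∈ L, ‖f t - z‖ ^ 2 + ∑ t ∈ R, ‖f t - z‖ ^ 2) := by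
    refine (sum_le_sum_of_subset_of_nonneg hcov (fun i _ _ => by positivity)).trans ?_
    have h2 : ∀ X Y : Finset ℤ, ∑ t ∈ X ∪ Y, ‖f t - z‖ ^ 2 ≤
        ∑ t ∈ X, ‖f t - z‖ ^ 2 + ∑ t ∈ Y, ‖f t - z‖ ^ 2 := by
      intro X Y
      have := sum_union_inter (s₁ := X) (s₂ := Y) (f := fun t => ‖f t - z‖ ^ 2)
      have h3 : 0 ≤ ∑ t ∈ X ∩ Y, ‖f t - z‖ ^ 2 := sum_nonneg fun t _ => by positivity
      linarith
    exact (h2 _ _).trans (by linarith [h2 L R])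
  have hLb : ∑ t ∈ L, ‖f t - z‖ ^ 2 ≤ 3 * (2 * A + T) := by
    have h2 : ∑ t ∈ L, ‖f t - z‖ ^ 2 ≤ ∑ t ∈ L, 3 * (‖f t - f (t + l)‖ ^ 2 +
        ‖f (t + l) - f (t + l + l)‖ ^ 2 + ‖f (t + l + l) - z‖ ^ 2) :=
      sum_le_sum fun t _ => three_sq _ _ _ _
    rw [← mul_sum, sum_add_distrib, sum_add_distrib] at h2
    have h3 : ∑ t ∈ L, ‖f t - f (t + l)‖ ^ 2 ≤ A := by
      have h4 : ∀ t : ℤ, ‖f t - f (t + l)‖ ^ 2 =
          (fun u : ℤ => ‖f (u - l) - f u‖ ^ 2) (t + l) := by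
        intro t
        change _ = ‖f (t + l - l) - f (t + l)‖ ^ 2
        rw [add_sub_cancel_right]
      rw [sum_congr rfl (fun t _ => h4 t)]
      refine sum_shift_le2 _ _ _ (fun u : ℤ => ‖f (u - l) - f u‖ ^ 2)
        (fun t => by positivity) ?_
      intro t ht
      rw [hL, mem_filter] at ht
      rw [mem_filter, add_sub_cancel_right]
      exact ⟨ht.2.1, ht.1⟩
    have h5 : ∑ t ∈ L, ‖f (t + l) - f (t + l + l)‖ ^ 2 ≤ A := by
      have h4 : ∀ t : ℤ, ‖f (t + l) - f (t + l + l)‖ ^ 2 =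
          (fun u : ℤ => ‖f (u - l) - f u‖ ^ 2) (t + (l + l)) := by
        intro t
        change _ = ‖f (t + (l + l) - l) - f (t + (l + l))‖ ^ 2
        rw [show t + (l + l) - l = t + l by ring, show t + (l + l) = t + l + l by ring]
      rw [sum_congr rfl (fun t _ => h4 t)]
      refine sum_shift_le2 _ _ _ (fun u : ℤ => ‖f (u - l) - f u‖ ^ 2)
        (fun t => by positivity) ?_
      intro t ht
      rw [hL, mem_filter] at ht
      rw [mem_filter, show t + (l + l) - l = t + l by ring, show t + (l + l) = t + l + l by ring]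
      exact ⟨hJI ht.2.2, ht.2.1⟩
    have h6 : ∑ t ∈ L, ‖f (t + l + l) - z‖ ^ 2 ≤ T := by
      have h4 : ∀ t : ℤ, ‖f (t + l + l) - z‖ ^ 2 =
          (fun u : ℤ => ‖f u - z‖ ^ 2) (t + (l + l)) := by
        intro t
        change _ = ‖f (t + (l + l)) - z‖ ^ 2
        rw [add_assoc]
      rw [sum_congr rfl (fun t _ => h4 t)]
      refine sum_shift_le2 _ _ _ (fun u : ℤ => ‖f u - z‖ ^ 2) (fun t => by positivity) ?_
      intro t ht
      rw [hL, mem_filter] at ht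
      rw [← add_assoc]
      exact ht.2.2
    linarith
  have hRb : ∑ t ∈ R, ‖f t - z‖ ^ 2 ≤ 3 * (2 * A + T) := by
    have h2 : ∑ t ∈ R, ‖f t - z‖ ^ 2 ≤ ∑ t ∈ R, 3 * (‖f t - f (t - l)‖ ^ 2 +
        ‖f (t - l) - f (t - l - l)‖ ^ 2 + ‖f (t - l - l) - z‖ ^ 2) :=
      sum_le_sum fun t _ => three_sq _ _ _ _
    rw [← mul_sum, sum_add_distrib, sum_add_distrib] at h2
    have h3 : ∑ t ∈ R, ‖f t - f (t - l)‖ ^ 2 ≤ A := by
      have h4 : ∀ t : ℤ, ‖f t - f (t - l)‖ ^ 2 = ‖f (t - l) - f t‖ ^ 2 := by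
        intro t
        rw [norm_sub_rev]
      rw [sum_congr rfl (fun t _ => h4 t)]
      refine sum_le_sum_of_subset_of_nonneg ?_ (fun i _ _ => by positivity)
      intro t ht
      rw [hR, mem_filter] at ht
      rw [mem_filter]
      exact ⟨ht.1, ht.2.1⟩
    have h5 : ∑ t ∈ R, ‖f (t - l) - f (t - l - l)‖ ^ 2 ≤ A := by
      have h4 : ∀ t : ℤ, ‖f (t - l) - f (t - l - l)‖ ^ 2 =
          (fun u : ℤ => ‖f (u - l) - f u‖ ^ 2) (t + -l) := by
        intro t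
        change _ = ‖f (t + -l - l) - f (t + -l)‖ ^ 2
        rw [norm_sub_rev, ← sub_eq_add_neg]
      rw [sum_congr rfl (fun t _ => h4 t)]
      refine sum_shift_le2 _ _ _ (fun u : ℤ => ‖f (u - l) - f u‖ ^ 2)
        (fun t => by positivity) ?_
      intro t ht
      rw [hR, mem_filter] at ht
      rw [mem_filter, ← sub_eq_add_neg]
      exact ⟨ht.2.1, hJI ht.2.2⟩
    have h6 : ∑ t ∈ R, ‖f (t - l - l) - z‖ ^ 2 ≤ T := by
      have h4 : ∀ t : ℤ, ‖f (t - l - l) - z‖ ^ 2 =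
          (fun u : ℤ => ‖f u - z‖ ^ 2) (t + (-l - l)) := by
        intro t
        change _ = ‖f (t + (-l - l)) - z‖ ^ 2
        rw [show t + (-l - l) = t - l - l by ring]
      rw [sum_congr rfl (fun t _ => h4 t)]
      refine sum_shift_le2 _ _ _ (fun u : ℤ => ‖f u - z‖ ^ 2) (fun t => by positivity) ?_
      intro t ht
      rw [hR, mem_filter] at ht
      rw [show t + (-l - l) = t - l - l by ring]
      exact ht.2.2
    linarith
  linarith

theorem pf_PI (hCON : T_CON) (hPRI : T_PRI) (hSIZ : T_SIZ) : T_PI := by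
  intro B c X₁ hgap M hM
  have hB : 2 ≤ B := hgap.2.1
  obtain ⟨C₁, hC₁, hcon⟩ := hCON B c X₁ hgap M hM
  obtain ⟨C₂, hC₂, hpri⟩ := hPRI M hM
  obtain ⟨X₂, hsiz⟩ := hSIZ
  refine ⟨16 * (7 * C₁ + 12 * C₂), by linarith, fun K hK => ?_⟩
  obtain ⟨X₃, hcon⟩ := hcon K hK
  obtain ⟨X₄, hpri⟩ := hpri K (by omega)
  refine ⟨max X₂ (max X₃ X₄), fun S hS hSK hX ε f hε hε1 hf hedg => ?_⟩
  obtain ⟨hL, hP, -, hr, hh4, -, -, -, -, hlp, -, hN, hcard⟩ :=
    hsiz S hS ((le_max_left _ _).trans hX)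
  have hX3 : X₃ ≤ S.X := ((le_max_left _ _).trans (le_max_right _ _)).trans hX
  have hX4 : X₄ ≤ S.X := ((le_max_right _ _).trans (le_max_right _ _)).trans hX
  obtain ⟨z, hz, hzs⟩ := hcon S hS hSK hX3 ε f hε hε1 hf hedg
  have hh := hS.hh
  have hI1 := hS.hI1
  have hI2 := hS.hI2
  have hKc : (S.K : ℝ) = K := by rw [hSK]
  have hK2 : (2 : ℝ) ≤ S.K := by
    rw [hKc]; exact_mod_cast hB.trans hK
  have hsmall : S.h ≤ 1 / 100 := by
    have h1 : S.rho ^ 4 ≤ (1 / 100) ^ 4 := pow_le_pow_left₀ hS.hr0.le hr 4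
    have h2 : ((1 : ℝ) / 100) ^ 4 ≤ 1 / 100 := by norm_num
    linarith
  -- the block
  have hPpos : 0 < S.P := Par.P_pos
  have hP1 : 1 ≤ S.P := by linarith
  set y : ℝ := Real.exp 1 * S.P ^ (3 * (S.K : ℝ) / 2) with hy
  have hypos : 0 < y := by positivity
  have hy1 : S.P ^ K ≤ y := by
    rw [← Real.rpow_natCast, hy]
    have h1 : S.P ^ ((K : ℕ) : ℝ) ≤ S.P ^ (3 * (S.K : ℝ) / 2) := by
      apply Real.rpow_le_rpow_of_exponent_le hP1
      rw [← hKc]; linarith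
    have h2 : 1 ≤ Real.exp 1 := Real.one_le_exp (by norm_num)
    have h3 : 0 ≤ S.P ^ (3 * (S.K : ℝ) / 2) := by positivity
    nlinarith
  have hy2 : y * S.P ^ (1 / 2 : ℝ) ≤ S.P ^ (2 * K) := by
    have h1 : S.P ^ (2 * K) = S.P ^ (2 * (S.K : ℝ)) := by
      rw [← Real.rpow_natCast]; push_cast; rw [hKc]
    have h2 : S.P ^ (2 * (S.K : ℝ)) =
        S.P ^ (3 * (S.K : ℝ) / 2) * S.P ^ (1 / 2 : ℝ) * S.P ^ ((S.K : ℝ) / 2 - 1 / 2) := by
      rw [← Real.rpow_add hPpos, ← Real.rpow_add hPpos]; congr 1; ring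
    have h3 : Real.exp 1 ≤ S.P ^ ((S.K : ℝ) / 2 - 1 / 2) := by
      have h4 : (10 : ℝ) ≤ S.P ^ (1 / 2 : ℝ) := by
        have h5 : ((100 : ℝ)) ^ (1 / 2 : ℝ) ≤ S.P ^ (1 / 2 : ℝ) :=
          Real.rpow_le_rpow (by norm_num) hP (by norm_num)
        have h6 : ((100 : ℝ)) ^ (1 / 2 : ℝ) = 10 := by
          rw [← Real.sqrt_eq_rpow, show (100 : ℝ) = 10 ^ 2 by norm_num,
            Real.sqrt_sq (by norm_num)]
        linarith
      have h7 : S.P ^ (1 / 2 : ℝ) ≤ S.P ^ ((S.K : ℝ) / 2 - 1 / 2) :=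
        Real.rpow_le_rpow_of_exponent_le hP1 (by linarith)
      have h8 := Real.exp_one_lt_d9
      linarith
    rw [h1, h2, hy]
    have h4 : 0 ≤ S.P ^ (3 * (S.K : ℝ) / 2) * S.P ^ (1 / 2 : ℝ) := by positivity
    nlinarith
  obtain ⟨p, hp, hAsq⟩ := hpri S hS hSK hX4 ε f hε hε1 hf hedg y hy1 hy2
  rw [mem_Pr (by positivity)] at hp
  obtain ⟨hp1, hp2, hpp⟩ := hp
  have hppos : (0 : ℝ) < p := by exact_mod_cast hpp.pos
  have hlogP : Real.log S.P = S.L := Par.log_P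
  have hly : Real.log y = 1 + 3 * (S.K : ℝ) / 2 * S.L := by
    rw [hy, Real.log_mul (Real.exp_pos _).ne' (by positivity), Real.log_exp,
      Real.log_rpow hPpos, hlogP]
  have hl1 : 1 + 3 * (S.K : ℝ) / 2 * S.L ≤ Real.log p := by
    rw [← hly]; exact Real.log_le_log hypos hp1.le
  have hl2 : Real.log p ≤ 1 + 3 * (S.K : ℝ) / 2 * S.L + 1 / 2 * S.L := by
    have h1 := Real.log_le_log hppos hp2
    rw [Real.log_mul hypos.ne' (by positivity), hly, Real.log_rpow hPpos, hlogP] at h1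
    exact h1
  have hl3 := hlp p hpp.one_le
  rw [abs_le] at hl3
  set l : ℤ := S.l p with hl
  set Q : ℝ := S.K * S.L with hQ
  have hQL : 2 * S.L ≤ Q := by rw [hQ]; nlinarith
  have e1 : 3 * (S.K : ℝ) / 2 * S.L = 3 / 2 * Q := by rw [hQ]; ring
  rw [e1] at hl1 hl2
  have hla : 3 / 2 * Q + 1 / 2 ≤ S.h * l := by linarith [hl3.1]
  have hlb : S.h * l ≤ 3 / 2 * Q + 1 / 2 * S.L + 2 := by linarith [hl3.2]
  have hQI1 : 12 * Q ≤ S.N * S.h := by rw [hQ]; linarith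
  have hNd : S.N = (S.b : ℝ) - S.a := rfl
  have hlpos : 0 < l := by
    have h1 : 0 < S.h * l := by linarith
    have h2 : (0 : ℝ) < l := (pos_iff_pos_of_mul_pos h1).1 hh
    exact_mod_cast h2
  have hmemI : ∀ t, t ∈ In S 3 ↔ 3 * Q ≤ ((t : ℝ) - S.a) * S.h ∧ 3 * Q ≤ ((S.b : ℝ) - t) * S.h := by
    intro t
    unfold In
    rw [mem_filter, Par.mem_I]
    constructor
    · exact fun h => h.2
    · intro h
      refine ⟨⟨?_, ?_⟩, h⟩
      · have h1 : 0 < ((t : ℝ) - S.a) * S.h := by linarith [h.1]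
        have h2 : 0 < (t : ℝ) - S.a := (pos_iff_pos_of_mul_pos h1).2 hh
        have h3 : (S.a : ℝ) < t := by linarith
        have h4 : S.a < t := by exact_mod_cast h3
        exact h4.le
      · have h1 : 0 < ((S.b : ℝ) - t) * S.h := by linarith [h.2]
        have h2 : 0 < (S.b : ℝ) - t := (pos_iff_pos_of_mul_pos h1).2 hh
        have h3 : (t : ℝ) < S.b := by linarith
        exact_mod_cast h3
  have hJI : In S 3 ⊆ S.I := by unfold In; exact filter_subset _ _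
  have hcase : ∀ t ∈ S.I, t ∈ In S 3 ∨ (t + l ∈ S.I ∧ t + l + l ∈ In S 3) ∨
      (t - l ∈ S.I ∧ t - l - l ∈ In S 3) := by
    intro t ht
    have ht' := Par.mem_I.1 ht
    have hta : (S.a : ℝ) ≤ t := by exact_mod_cast ht'.1
    have htb : (t : ℝ) < S.b := by exact_mod_cast ht'.2
    have hsum : ((t : ℝ) - S.a) * S.h + ((S.b : ℝ) - t) * S.h = S.N * S.h := by
      rw [hNd]; ring
    by_cases h1 : 3 * Q ≤ ((t : ℝ) - S.a) * S.h
    · by_cases h2 : 3 * Q ≤ ((S.b : ℝ) - t) * S.h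
      · exact Or.inl ((hmemI t).2 ⟨h1, h2⟩)
      · right; right
        push Not at h2
        have h3 : t - l - l ∈ In S 3 := by
          rw [hmemI]
          push_cast
          constructor
          · have : ((t : ℝ) - l - l - S.a) * S.h =
                ((t : ℝ) - S.a) * S.h - 2 * (S.h * l) := by ring
            rw [this]; linarith
          · have : ((S.b : ℝ) - (t - l - l)) * S.h =
                ((S.b : ℝ) - t) * S.h + 2 * (S.h * l) := by ring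
            rw [this]
            have h4 : 0 ≤ ((S.b : ℝ) - t) * S.h := mul_nonneg (by linarith) hh.le
            linarith
        refine ⟨?_, h3⟩
        have h4 := Par.mem_I.1 (hJI h3)
        rw [Par.mem_I]
        omega
    · right; left
      push Not at h1
      have h3 : t + l + l ∈ In S 3 := by
        rw [hmemI]
        push_cast
        constructor
        · have : ((t : ℝ) + l + l - S.a) * S.h =
              ((t : ℝ) - S.a) * S.h + 2 * (S.h * l) := by ring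
          rw [this]
          have h4 : 0 ≤ ((t : ℝ) - S.a) * S.h := mul_nonneg (by linarith) hh.le
          linarith
        · have : ((S.b : ℝ) - (t + l + l)) * S.h =
              ((S.b : ℝ) - t) * S.h - 2 * (S.h * l) := by ring
          rw [this]; linarith
      refine ⟨?_, h3⟩
      have h4 := Par.mem_I.1 (hJI h3)
      rw [Par.mem_I]
      omega
  have hst := strips S.I (In S 3) f z l hJI hcase
  have hA : ∑ t ∈ S.I.filter (fun t => t - l ∈ S.I), ‖f (t - l) - f t‖ ^ 2 ≤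
      C₂ * (K * ε) * S.N := hAsq
  refine ⟨z, hz, ?_⟩
  -- Chebyshev
  have hch : S.cnt (fun t => 1 / 4 < ‖f t - z‖) * (1 / 16) ≤ ∑ t ∈ S.I, ‖f t - z‖ ^ 2 := by
    unfold Par.cnt
    have h1 : ∑ t ∈ S.fl (fun t => 1 / 4 < ‖f t - z‖), ‖f t - z‖ ^ 2 ≤
        ∑ t ∈ S.I, ‖f t - z‖ ^ 2 :=
      sum_le_sum_of_subset_of_nonneg (fun t ht => (Par.mem_fl.1 ht).1)
        (fun i _ _ => by positivity)
    have h2 : ((S.fl (fun t => 1 / 4 < ‖f t - z‖)).card : ℝ) * (1 / 16) ≤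
        ∑ t ∈ S.fl (fun t => 1 / 4 < ‖f t - z‖), ‖f t - z‖ ^ 2 := by
      rw [← nsmul_eq_mul, ← sum_const]
      refine sum_le_sum fun t ht => ?_
      have h3 := (Par.mem_fl.1 ht).2
      nlinarith [norm_nonneg (f t - z)]
    linarith
  have hinv : 0 ≤ 1 / (K : ℝ) ^ 2 := by positivity
  have hKε : 0 ≤ (K : ℝ) * ε := by positivity
  have h9 : C₂ * (K * ε) * S.N ≤ C₂ * (K * ε + 1 / (K : ℝ) ^ 2) * S.N := by
    gcongr
    linarith
  have h10 : ∑ t ∈ S.I, ‖f t - z‖ ^ 2 ≤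
      7 * (C₁ * (K * ε + 1 / (K : ℝ) ^ 2) * S.N) +
        12 * (C₂ * (K * ε + 1 / (K : ℝ) ^ 2) * S.N) := by linarith
  calc S.cnt (fun t => 1 / 4 < ‖f t - z‖)
      = 16 * (S.cnt (fun t => 1 / 4 < ‖f t - z‖) * (1 / 16)) := by ring
    _ ≤ 16 * (7 * (C₁ * (K * ε + 1 / (K : ℝ) ^ 2) * S.N) +
        12 * (C₂ * (K * ε + 1 / (K : ℝ) ^ 2) * S.N)) := by linarith
    _ = 16 * (7 * C₁ + 12 * C₂) * (K * ε + 1 / (K : ℝ) ^ 2) * S.N := by ring

end Pool.Agent.H72.N4D
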